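import Pool.Agent.N931.PN.Stm2
import Pool.Agent.Y381.SN.Bulk
import Pool.Agent.Y554.SN.Top

/-!
Project PN (helper931): two layers, four arms.
-/

set_option autoImplicit false

namespace Pool.Agent.N551.PN.P4

open H974 H12S H389NS H984N H984P H342P Finset
open Pool.Agent.N931.PN

theorem D4_loc {z : Vtx} {d R : ℕ} (F : Finset Edg) :
    D4 z d R F ↔ D4 z d R (F ∩ AN z d R) := by
  unfold D4
  have : AN z d R \ (F ∩ AN z d R) = AN z d R \ F := by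
    ext x
    simp only [Finset.mem_sdiff, Finset.mem_inter]
    tauto
  rw [this]

/-- the dual annulus -/
theorem dual_sub {z : Vtx} {d R : ℕ} (hR : d + 8 ≤ R) :
    Pool.Agent.Y554.SN.Anz z (d + 2) (R - 2) ⊆ (AN z d R).map dl.toEmbedding := by
  change Pool.Agent.Y554.SN.Anz z (d + 2) (R - 2) ⊆ dmp (AN z d R)
  unfold Pool.Agent.Y554.SN.Anz AN blk
  rintro ⟨a, b, c⟩ h
  rw [mem_dmp]
  rw [Finset.mem_sdiff] at h ⊢
  have hR2 : ((R - 2 : ℕ) : ℤ) = (R : ℤ) - 2 := by omega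
  obtain ⟨h1, h2⟩ := h
  cases c <;>
    simp only [dls_t, dls_f, mem_RE_true, mem_RE_false] at h1 h2 ⊢ <;>
    rw [hR2] at h1 <;> push_cast at h2 <;> omega

theorem P2_D4 {x : ℝ} (h0 : 0 ≤ x) (h1 : x ≤ 1) {S : Finset Edg} {z : Vtx} {d R : ℕ}
    (hR : d + 8 ≤ R) (hS : AN z d R ⊆ S) :
    P2 (fun _ => x) S (D4 z d R) (D4 z d R) ≤
      Pool.Agent.Y554.DP.qX Pool.Agent.Y554.SN.AF4 x (d + 2) (R - 2) := by
  rw [P2_local hS (fun F _ => D4_loc F) (fun F _ => D4_loc F), D0.P2_compl]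
  have hm : ∀ F : Finset Edg, F ⊆ AN z d R → D4 z d R (AN z d R \ F) →
      A4a z (d + 2) (R - 2) (↑(F.map dl.toEmbedding) : Set Edg) := by
    intro F hF h
    unfold D4 at h
    rw [Finset.sdiff_sdiff_eq_self hF] at h
    exact h
  have h2 := D0.P2_mono (ρ := fun _ : Edg => x) (S := AN z d R) (fun _ _ => ⟨h0, h1⟩) hm hm
  refine h2.trans ?_
  have h3 := D0.P2_map dl.toEmbedding (fun _ => x) (AN z d R)
    (fun F => A4a z (d + 2) (R - 2) (↑F : Set Edg)) (fun F => A4a z (d + 2) (R - 2) (↑F : Set Edg))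
  rw [← h3]
  exact Pool.Agent.Y554.SN.P2_A4a_le (dual_sub hR) h0 h1

theorem main0 (hq : Pool.Agent.Y554.SN.S_QXS) (ha : Pool.Agent.Y554.SN.S_AF4) : S_P4 := by
  obtain ⟨C, hC, H⟩ := hq _ _ ha
  refine ⟨2 * C + 2 * (C * 6 ^ (5 / 2 : ℝ)), by positivity, ?_⟩
  intro S z d R hd hR hS x hx0 hx1 hx
  have hor := E2a.P2_or (ρ := fun _ : Edg => x) (S := S) (fun _ _ => ⟨hx0, hx1.le⟩)
    (fun F => A4a z d R (↑F : Set Edg)) (D4 z d R)
  have e1 : P2 (fun _ => x) S (fun F => A4a z d R (↑F : Set Edg))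
      (fun F => A4a z d R (↑F : Set Edg)) ≤ C * ((d : ℝ) / R) ^ (5 / 2 : ℝ) := by
    refine (Pool.Agent.Y554.SN.P2_A4a_le hS hx0 hx1.le).trans ?_
    refine (H d R x hd (by omega) hx0 hx1 hx).trans (le_of_eq ?_)
    norm_num
  have hd0 : (0 : ℝ) < d := by exact_mod_cast hd
  have hR9 : (9 : ℝ) ≤ R := by exact_mod_cast (by omega : 9 ≤ R)
  have hR2 : ((R - 2 : ℕ) : ℝ) = (R : ℝ) - 2 := by
    rw [Nat.cast_sub (by omega)]
    norm_num
  have e2 : P2 (fun _ => x) S (D4 z d R) (D4 z d R) ≤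
      C * 6 ^ (5 / 2 : ℝ) * ((d : ℝ) / R) ^ (5 / 2 : ℝ) := by
    refine (P2_D4 hx0 hx1.le hR hS).trans ?_
    have hx' : 1 ≤ (1 - x) * (((d + 2 : ℕ)) : ℝ) ^ (3 / 4 : ℝ) := by
      refine hx.trans ?_
      apply mul_le_mul_of_nonneg_left _ (by linarith)
      apply Real.rpow_le_rpow hd0.le _ (by norm_num)
      push_cast
      linarith
    refine (H (d + 2) (R - 2) x (by omega) (by omega) hx0 hx1 hx').trans ?_
    have e3 : (((d + 2 : ℕ) : ℝ)) / ((R - 2 : ℕ) : ℝ) ≤ 6 * ((d : ℝ) / R) := by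
      rw [hR2]
      push_cast
      rw [div_le_iff₀ (by linarith)]
      have hd1 : (1 : ℝ) ≤ d := by exact_mod_cast hd
      have h5 : 6 * ((d : ℝ) / R) * (R - 2) = 6 * d * (1 - 2 / R) := by
        field_simp
      rw [h5]
      have h6 : 2 / (R : ℝ) ≤ 2 / 9 := by
        apply div_le_div_of_nonneg_left (by norm_num) (by norm_num) hR9
      nlinarith
    have e4 : (((d + 2 : ℕ) : ℝ) / ((R - 2 : ℕ) : ℝ)) ^ (2 * (5 / 4) : ℝ) ≤
        (6 * ((d : ℝ) / R)) ^ (5 / 2 : ℝ) := by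
      have : (2 * (5 / 4) : ℝ) = 5 / 2 := by norm_num
      rw [this]
      exact Real.rpow_le_rpow (by positivity) e3 (by norm_num)
    calc C * (((d + 2 : ℕ) : ℝ) / ((R - 2 : ℕ) : ℝ)) ^ (2 * (5 / 4) : ℝ)
        ≤ C * (6 * ((d : ℝ) / R)) ^ (5 / 2 : ℝ) := mul_le_mul_of_nonneg_left e4 hC.le
      _ = C * 6 ^ (5 / 2 : ℝ) * ((d : ℝ) / R) ^ (5 / 2 : ℝ) := by
        rw [Real.mul_rpow (by norm_num) (by positivity)]
        ring
  refine hor.trans ?_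
  calc _ ≤ 2 * (C * ((d : ℝ) / R) ^ (5 / 2 : ℝ)) +
        2 * (C * 6 ^ (5 / 2 : ℝ) * ((d : ℝ) / R) ^ (5 / 2 : ℝ)) := by linarith
    _ = _ := by ring

theorem main : S_P4 := main0 Pool.Agent.Y554.SN.qXS Pool.Agent.Y554.SN.af4

end Pool.Agent.N551.PN.P4
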